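import Mathlib

/-!
# The sum-decomposition value of weighted cut functions is not monotone in the weights

The graph is the complete graph on ten vertices, seen as the join of two copies `A`, `B` of the
cyclic group of order five. The edges between `A` and `B` have weight `2`; two vertices of the same
copy which are consecutive (differ by `1`) have weight `4`. For `w'` all other edges have weight
`0`, for `w` they have weight `1`. We show `‖d_w‖₊ ≤ 64` and `65 ≤ ‖d_w'‖₊`.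

* Upper bound: an explicit decomposition of `d_w`; its value at `X` depends only on the two types
  of `X ∩ A` and `X ∩ B` as subsets of a pentagon (there are 8 types).
* Lower bound: in a decomposition of `d_w'` the increasing part `φ` is modular along the pairs of
  weight `0`. With `N(u)` the two neighbours of `u` in its own pentagon one gets the identity
  `φ(V) = ½ ∑ φ(u) + ½ ∑ (φ(V) - φ(V - u)) + ¼ ∑_{u ∈ A, v ∈ B} (Δ φ(N(u) ∪ N(v)) - Δ φ(∅))`,
  where `Δ φ(X) = φ(X + u) + φ(X + v) - φ(X + u + v) - φ(X)`; the terms are at least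
  `½ · 10 · 18`, `0`, `0` and `- ¼ · 25 · 4`.
-/

set_option autoImplicit false

open Finset

namespace Pool.Agent.Results.MP_37da45_co.NotMonotone

section Definitions

variable {V : Type} [Fintype V] [DecidableEq V]

/-- `f` is increasing: `X ⊆ Y` implies `f X ≤ f Y`. -/
def IsIncreasing (f : Finset V → ℝ) : Prop := ∀ X Y : Finset V, X ⊆ Y → f X ≤ f Y

/-- `f` is decreasing: `X ⊆ Y` implies `f Y ≤ f X`. -/
def IsDecreasing (f : Finset V → ℝ) : Prop := ∀ X Y : Finset V, X ⊆ Y → f Y ≤ f X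

/-- `f` is submodular. -/
def IsSubmodular (f : Finset V → ℝ) : Prop :=
  ∀ X Y : Finset V, f (X ∩ Y) + f (X ∪ Y) ≤ f X + f Y

/-- `φ = φ₁ + φ₂` is a monotonic sum-decomposition: `φ₁` is increasing and submodular, `φ₂` is
decreasing and submodular, and both vanish at the empty set. -/
structure IsDecomposition (φ φ₁ φ₂ : Finset V → ℝ) : Prop where
  sum : ∀ X, φ X = φ₁ X + φ₂ X
  inc : IsIncreasing φ₁
  sub₁ : IsSubmodular φ₁
  dec : IsDecreasing φ₂
  sub₂ : IsSubmodular φ₂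
  zero₁ : φ₁ ∅ = 0
  zero₂ : φ₂ ∅ = 0

/-- The value `‖φ‖₊`: the infimum of `φ₁(V)` over the monotonic sum-decompositions
`φ = φ₁ + φ₂`. -/
noncomputable def plusNorm (φ : Finset V → ℝ) : ℝ :=
  sInf {t | ∃ φ₁ φ₂ : Finset V → ℝ, IsDecomposition φ φ₁ φ₂ ∧ t = φ₁ univ}

/-- `e` is an edge of `G` with exactly one endpoint in `X`. -/
def Crosses (G : SimpleGraph V) (X : Finset V) (e : Sym2 V) : Prop :=
  e ∈ G.edgeSet ∧ ∃ u v : V, e = s(u, v) ∧ u ∈ X ∧ v ∉ X

open Classical in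
/-- The weighted cut function: `cutFn G w X` is the sum of `w e` over the edges `e` of `G` with
exactly one endpoint in `X`. -/
noncomputable def cutFn (G : SimpleGraph V) (w : Sym2 V → ℝ) (X : Finset V) : ℝ :=
  ∑ e ∈ (univ : Finset (Sym2 V)).filter (Crosses G X), w e

end Definitions

/-! ### From local to global -/

section Local

variable {V : Type} [DecidableEq V]

lemma increasing_of_local {f : Finset V → ℝ}
    (h : ∀ X i, i ∉ X → f X ≤ f (insert i X)) : IsIncreasing f := by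
  intro X Y hXY
  have key : ∀ Z : Finset V, f X ≤ f (X ∪ Z) := by
    intro Z
    induction Z using Finset.induction_on with
    | empty => simp
    | insert i Z _ ih =>
      rw [Finset.union_insert]
      by_cases hm : i ∈ X ∪ Z
      · rwa [Finset.insert_eq_of_mem hm]
      · exact ih.trans (h _ _ hm)
  have := key Y
  rwa [Finset.union_eq_right.2 hXY] at this

lemma decreasing_of_local {f : Finset V → ℝ}
    (h : ∀ X i, i ∉ X → f (insert i X) ≤ f X) : IsDecreasing f := by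
  intro X Y hXY
  have key : ∀ Z : Finset V, f (X ∪ Z) ≤ f X := by
    intro Z
    induction Z using Finset.induction_on with
    | empty => simp
    | insert i Z _ ih =>
      rw [Finset.union_insert]
      by_cases hm : i ∈ X ∪ Z
      · rwa [Finset.insert_eq_of_mem hm]
      · exact (h _ _ hm).trans ih
  have := key Y
  rwa [Finset.union_eq_right.2 hXY] at this

lemma submodular_of_local {f : Finset V → ℝ}
    (h : ∀ X i j, i ∉ X → j ∉ X → i ≠ j →
      f (insert i (insert j X)) + f X ≤ f (insert i X) + f (insert j X)) : IsSubmodular f := by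
  have marg : ∀ (Z X : Finset V) (i : V), i ∉ X ∪ Z →
      f (insert i (X ∪ Z)) + f X ≤ f (insert i X) + f (X ∪ Z) := by
    intro Z
    induction Z using Finset.induction_on with
    | empty => intro X i _; simp
    | insert j Z _ ih =>
      intro X i hi
      rw [Finset.union_insert] at hi ⊢
      rw [Finset.mem_insert, not_or] at hi
      by_cases hm : j ∈ X ∪ Z
      · rw [Finset.insert_eq_of_mem hm]; exact ih X i hi.2
      · have h1 := ih X i hi.2
        have h2 := h (X ∪ Z) i j hi.2 hm hi.1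
        linarith
  have key : ∀ (Z X W : Finset V), W ⊆ X → Disjoint X Z →
      f (X ∪ Z) + f W ≤ f X + f (W ∪ Z) := by
    intro Z
    induction Z using Finset.induction_on with
    | empty => intro X W _ _; simp
    | insert i Z hi ih =>
      intro X W hWX hd
      rw [Finset.disjoint_insert_right] at hd
      have h1 := ih X W hWX hd.2
      have h2 := marg (X ∪ Z) (W ∪ Z) i (by
        simp only [Finset.mem_union, not_or]
        exact ⟨⟨fun hx => hd.1 (hWX hx), hi⟩, hd.1, hi⟩)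
      have e : (W ∪ Z) ∪ (X ∪ Z) = X ∪ Z :=
        Finset.union_eq_right.2 (Finset.union_subset_union_left hWX)
      rw [e] at h2
      rw [Finset.union_insert, Finset.union_insert]
      linarith
  intro X Y
  have h1 := key (Y \ X) X (X ∩ Y) Finset.inter_subset_left Finset.disjoint_sdiff
  have e1 : X ∪ Y \ X = X ∪ Y := Finset.union_sdiff_self_eq_union
  have e2 : X ∩ Y ∪ Y \ X = Y := by
    ext a; simp only [Finset.mem_union, Finset.mem_inter, Finset.mem_sdiff]; tauto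
  rw [e1, e2] at h1
  linarith

lemma IsSubmodular.local [Fintype V] {f : Finset V → ℝ} (h : IsSubmodular f) (X : Finset V)
    (i j : V) (hij : i ≠ j) :
    f (insert i (insert j X)) + f X ≤ f (insert i X) + f (insert j X) := by
  have h1 := h (insert i X) (insert j X)
  have e1 : insert i X ∩ insert j X = X := by
    ext a
    simp only [Finset.mem_inter, Finset.mem_insert]
    constructor
    · rintro ⟨h1 | h1, h2 | h2⟩
      · exact absurd (h1.symm.trans h2) hij
      · exact h2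
      · exact h1
      · exact h1
    · exact fun h => ⟨Or.inr h, Or.inr h⟩
  have e2 : insert i X ∪ insert j X = insert i (insert j X) := by
    ext a
    simp only [Finset.mem_union, Finset.mem_insert]
    tauto
  rw [e1, e2] at h1
  linarith

end Local

/-! ### The cut function of a complete graph -/

lemma cutFn_top {V : Type} [Fintype V] [DecidableEq V] (w : Sym2 V → ℝ) (X : Finset V) :
    cutFn (⊤ : SimpleGraph V) w X = ∑ u ∈ X, ∑ v ∈ Xᶜ, w s(u, v) := by
  classical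
  unfold cutFn
  rw [← Finset.sum_product']
  symm
  refine Finset.sum_bij (fun p _ => s(p.1, p.2)) ?_ ?_ ?_ ?_
  · intro p hp
    rw [Finset.mem_product, Finset.mem_compl] at hp
    rw [Finset.mem_filter]
    refine ⟨Finset.mem_univ _, ?_, p.1, p.2, rfl, hp.1, hp.2⟩
    rw [SimpleGraph.mem_edgeSet, SimpleGraph.top_adj]
    exact fun h => hp.2 (h ▸ hp.1)
  · intro p hp q hq hpq
    rw [Finset.mem_product, Finset.mem_compl] at hp hq
    rw [Sym2.eq_iff] at hpq
    rcases hpq with ⟨h1, h2⟩ | ⟨h1, _⟩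
    · exact Prod.ext h1 h2
    · exact absurd (h1 ▸ hp.1) hq.2
  · intro e he
    rw [Finset.mem_filter] at he
    obtain ⟨_, _, u, v, rfl, hu, hv⟩ := he
    exact ⟨(u, v), by rw [Finset.mem_product, Finset.mem_compl]; exact ⟨hu, hv⟩, rfl⟩
  · intro p _
    rfl

/-! ### The weights -/

/-- The ten vertices: two copies of `ℤ/5`. -/
abbrev W : Type := Fin 5 ⊕ Fin 5

/-- The weight inside a copy. -/
def inn (q : ℤ) (i j : Fin 5) : ℤ :=
  if j = i + 1 ∨ i = j + 1 then 4 else if i = j then 0 else q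

/-- The weight of a pair of vertices. -/
def wt (q : ℤ) : W → W → ℤ
  | Sum.inl i, Sum.inl j => inn q i j
  | Sum.inr i, Sum.inr j => inn q i j
  | Sum.inl _, Sum.inr _ => 2
  | Sum.inr _, Sum.inl _ => 2

lemma inn_symm (q : ℤ) (i j : Fin 5) : inn q i j = inn q j i := by
  unfold inn
  by_cases h : j = i + 1 ∨ i = j + 1
  · rw [if_pos h, if_pos (Or.symm h)]
  · rw [if_neg h, if_neg (fun h' => h (Or.symm h'))]
    by_cases h2 : i = j
    · rw [if_pos h2, if_pos (Eq.symm h2)]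
    · rw [if_neg h2, if_neg (fun h' => h2 (Eq.symm h'))]

lemma wt_symm (q : ℤ) (u v : W) : wt q u v = wt q v u := by
  rcases u with i | i <;> rcases v with j | j
  · exact inn_symm q i j
  · rfl
  · rfl
  · exact inn_symm q i j

/-- The weight function on edges. -/
noncomputable def weight (q : ℤ) (e : Sym2 W) : ℝ :=
  Sym2.lift ⟨fun u v => ((wt q u v : ℤ) : ℝ), fun u v => congrArg _ (wt_symm q u v)⟩ e

lemma weight_mk (q : ℤ) (u v : W) : weight q s(u, v) = ((wt q u v : ℤ) : ℝ) := rfl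

/-- The cut function inside a copy. -/
def innerCut (q : ℤ) (S : Finset (Fin 5)) : ℤ := ∑ i ∈ S, ∑ j ∈ Sᶜ, inn q i j

lemma compl_disjSum (S T : Finset (Fin 5)) : (S.disjSum T)ᶜ = Sᶜ.disjSum Tᶜ := by
  ext x
  rcases x with x | x <;> simp

lemma cut_eq (q : ℤ) (S T : Finset (Fin 5)) :
    cutFn (⊤ : SimpleGraph W) (weight q) (S.disjSum T) =
      ((innerCut q S + innerCut q T + 2 * (S.card * (5 - T.card) + T.card * (5 - S.card)) : ℤ) : ℝ)
      := by
  rw [cutFn_top, compl_disjSum, Finset.sum_disjSum]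
  simp only [Finset.sum_disjSum, weight_mk, wt]
  have hc : ∀ U : Finset (Fin 5), ((Uᶜ.card : ℕ) : ℝ) = 5 - (U.card : ℝ) := by
    intro U
    have h1 := Finset.card_add_card_compl U
    rw [Fintype.card_fin] at h1
    have h2 : ((U.card : ℕ) : ℝ) + ((Uᶜ.card : ℕ) : ℝ) = 5 := by exact_mod_cast h1
    linarith
  simp only [Finset.sum_add_distrib, Finset.sum_const, nsmul_eq_mul, hc]
  push_cast [innerCut]
  ring

/-! ### The lower bound -/

/-- The two neighbours of `i` in the pentagon. -/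
def Nb : Fin 5 → Finset (Fin 5) := ![{1, 4}, {0, 2}, {1, 3}, {2, 4}, {0, 3}]

/-- The closed neighbourhoods of the pentagon. -/
def Nc : Fin 5 → Finset (Fin 5) := ![{0, 1, 4}, {0, 1, 2}, {1, 2, 3}, {2, 3, 4}, {0, 3, 4}]

/-- The complements of the points. -/
def Er : Fin 5 → Finset (Fin 5) := ![{1, 2, 3, 4}, {0, 2, 3, 4}, {0, 1, 3, 4}, {0, 1, 2, 4},
  {0, 1, 2, 3}]

lemma insert_Nb (i : Fin 5) : insert i (Nb i) = Nc i := by
  revert i; decide

lemma insert_Er (i : Fin 5) : insert i (Er i) = univ := by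
  revert i; decide

/-- `ψ` is modular along the pairs at distance two in the pentagon. -/
def Mod5 (ψ : Finset (Fin 5) → ℝ) : Prop :=
  ∀ (S : Finset (Fin 5)) (i : Fin 5), i ∉ S → i + 2 ∉ S →
    ψ (insert i (insert (i + 2) S)) + ψ S = ψ (insert i S) + ψ (insert (i + 2) S)

lemma Mod5.inst {ψ : Finset (Fin 5) → ℝ} (h : Mod5 ψ) (S A C D : Finset (Fin 5)) (i : Fin 5)
    (h1 : i ∉ S) (h2 : i + 2 ∉ S) (hA : insert i (insert (i + 2) S) = A) (hC : insert i S = C)
    (hD : insert (i + 2) S = D) : ψ A + ψ S = ψ C + ψ D := by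
  have := h S i h1 h2
  rwa [hA, hC, hD] at this

lemma c5 {ψ : Finset (Fin 5) → ℝ} (h : Mod5 ψ) :
    (∑ i, ψ (Nb i)) = 2 * (∑ i, ψ {i}) - 5 * ψ ∅ ∧
    (∑ i, ψ (Nc i)) = 2 * ψ univ + (∑ i, ψ {i}) - 2 * ψ ∅ ∧
    (∑ i, ψ (Er i)) = 3 * ψ univ + (∑ i, ψ {i}) - 3 * ψ ∅ := by
  have e0 := h.inst ∅ {0, 2} {0} {2} 0 (by decide) (by decide) (by decide) (by decide) (by decide)
  have e1 := h.inst {1} {0, 1, 2} {0, 1} {1, 2} 0 (by decide) (by decide) (by decide) (by decide) (by decide)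
  have e2 := h.inst {3} {0, 2, 3} {0, 3} {2, 3} 0 (by decide) (by decide) (by decide) (by decide) (by decide)
  have e3 := h.inst {1, 3} {0, 1, 2, 3} {0, 1, 3} {1, 2, 3} 0 (by decide) (by decide) (by decide) (by decide) (by decide)
  have e4 := h.inst {3, 4} {0, 2, 3, 4} {0, 3, 4} {2, 3, 4} 0 (by decide) (by decide) (by decide) (by decide) (by decide)
  have e5 := h.inst {1, 3, 4} univ {0, 1, 3, 4} {1, 2, 3, 4} 0 (by decide) (by decide) (by decide) (by decide) (by decide)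
  have e6 := h.inst ∅ {1, 3} {1} {3} 1 (by decide) (by decide) (by decide) (by decide) (by decide)
  have e7 := h.inst {2} {1, 2, 3} {1, 2} {2, 3} 1 (by decide) (by decide) (by decide) (by decide) (by decide)
  have e8 := h.inst {4} {1, 3, 4} {1, 4} {3, 4} 1 (by decide) (by decide) (by decide) (by decide) (by decide)
  have e9 := h.inst {2, 4} {1, 2, 3, 4} {1, 2, 4} {2, 3, 4} 1 (by decide) (by decide) (by decide) (by decide) (by decide)
  have e10 := h.inst {0, 4} {0, 1, 3, 4} {0, 1, 4} {0, 3, 4} 1 (by decide) (by decide) (by decide) (by decide) (by decide)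
  have e11 := h.inst {0, 2, 4} univ {0, 1, 2, 4} {0, 2, 3, 4} 1 (by decide) (by decide) (by decide) (by decide) (by decide)
  have e12 := h.inst ∅ {2, 4} {2} {4} 2 (by decide) (by decide) (by decide) (by decide) (by decide)
  have e13 := h.inst {3} {2, 3, 4} {2, 3} {3, 4} 2 (by decide) (by decide) (by decide) (by decide) (by decide)
  have e14 := h.inst {0} {0, 2, 4} {0, 2} {0, 4} 2 (by decide) (by decide) (by decide) (by decide) (by decide)
  have e15 := h.inst {0, 3} {0, 2, 3, 4} {0, 2, 3} {0, 3, 4} 2 (by decide) (by decide) (by decide) (by decide) (by decide)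
  have e16 := h.inst {0, 1} {0, 1, 2, 4} {0, 1, 2} {0, 1, 4} 2 (by decide) (by decide) (by decide) (by decide) (by decide)
  have e17 := h.inst {0, 1, 3} univ {0, 1, 2, 3} {0, 1, 3, 4} 2 (by decide) (by decide) (by decide) (by decide) (by decide)
  have e18 := h.inst ∅ {0, 3} {3} {0} 3 (by decide) (by decide) (by decide) (by decide) (by decide)
  have e19 := h.inst {4} {0, 3, 4} {3, 4} {0, 4} 3 (by decide) (by decide) (by decide) (by decide) (by decide)
  have e20 := h.inst {1} {0, 1, 3} {1, 3} {0, 1} 3 (by decide) (by decide) (by decide) (by decide) (by decide)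
  have e21 := h.inst {1, 4} {0, 1, 3, 4} {1, 3, 4} {0, 1, 4} 3 (by decide) (by decide) (by decide) (by decide) (by decide)
  have e22 := h.inst {1, 2} {0, 1, 2, 3} {1, 2, 3} {0, 1, 2} 3 (by decide) (by decide) (by decide) (by decide) (by decide)
  have e23 := h.inst {1, 2, 4} univ {1, 2, 3, 4} {0, 1, 2, 4} 3 (by decide) (by decide) (by decide) (by decide) (by decide)
  have e24 := h.inst ∅ {1, 4} {4} {1} 4 (by decide) (by decide) (by decide) (by decide) (by decide)
  have e25 := h.inst {0} {0, 1, 4} {0, 4} {0, 1} 4 (by decide) (by decide) (by decide) (by decide) (by decide)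
  have e26 := h.inst {2} {1, 2, 4} {2, 4} {1, 2} 4 (by decide) (by decide) (by decide) (by decide) (by decide)
  have e27 := h.inst {0, 2} {0, 1, 2, 4} {0, 2, 4} {0, 1, 2} 4 (by decide) (by decide) (by decide) (by decide) (by decide)
  have e28 := h.inst {2, 3} {1, 2, 3, 4} {2, 3, 4} {1, 2, 3} 4 (by decide) (by decide) (by decide) (by decide) (by decide)
  have e29 := h.inst {0, 2, 3} univ {0, 2, 3, 4} {0, 1, 2, 3} 4 (by decide) (by decide) (by decide) (by decide) (by decide)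
  simp only [Fin.sum_univ_five, Nb, Nc, Er, Matrix.cons_val]
  refine ⟨?_, ?_, ?_⟩ <;> linarith

lemma lower (g : Finset (Fin 5) → Finset (Fin 5) → ℝ) (h0 : g ∅ ∅ = 0)
    (hm1 : ∀ T, Mod5 (fun S => g S T)) (hm2 : ∀ S, Mod5 (fun T => g S T))
    (hd1 : ∀ i, 18 ≤ g {i} ∅) (hd2 : ∀ j, 18 ≤ g ∅ {j})
    (ht1 : ∀ i, g (Er i) univ ≤ g univ univ) (ht2 : ∀ j, g univ (Er j) ≤ g univ univ)
    (hs : ∀ i j, g (Nc i) (Nc j) + g (Nb i) (Nb j) ≤ g (Nc i) (Nb j) + g (Nb i) (Nc j))
    (hl : ∀ i j, g {i} ∅ + g ∅ {j} ≤ g {i} {j} + g ∅ ∅ + 4) :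
    65 ≤ g univ univ := by
  have r1 : ∀ S, ∑ j, g S (Nb j) = 2 * (∑ j, g S {j}) - 5 * g S ∅ := fun S => (c5 (hm2 S)).1
  have r2 : ∀ S, ∑ j, g S (Nc j) = 2 * g S univ + (∑ j, g S {j}) - 2 * g S ∅ :=
    fun S => (c5 (hm2 S)).2.1
  have r3 : ∀ S, ∑ j, g S (Er j) = 3 * g S univ + (∑ j, g S {j}) - 3 * g S ∅ :=
    fun S => (c5 (hm2 S)).2.2
  have hG1 : Mod5 (fun S => ∑ j, g S {j}) := by
    intro S i h1 h2
    show (∑ j, g (insert i (insert (i + 2) S)) {j}) + ∑ j, g S {j} =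
      (∑ j, g (insert i S) {j}) + ∑ j, g (insert (i + 2) S) {j}
    rw [← Finset.sum_add_distrib, ← Finset.sum_add_distrib]
    exact Finset.sum_congr rfl (fun j _ => hm1 {j} S i h1 h2)
  obtain ⟨p1, p2, p3⟩ := c5 (hm1 ∅)
  obtain ⟨q1, q2, q3⟩ := c5 (hm1 univ)
  obtain ⟨s1, s2, s3⟩ := c5 hG1
  have H1 := Finset.sum_le_sum (fun i (_ : i ∈ (univ : Finset (Fin 5))) =>
    Finset.sum_le_sum (fun j (_ : j ∈ (univ : Finset (Fin 5))) => hs i j))
  simp only [Finset.sum_add_distrib, Finset.sum_sub_distrib, ← Finset.mul_sum, r1, r2] at H1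
  rw [p1, p2, q1, q2, s1, s2] at H1
  have H2 := Finset.sum_le_sum (fun i (_ : i ∈ (univ : Finset (Fin 5))) =>
    Finset.sum_le_sum (fun j (_ : j ∈ (univ : Finset (Fin 5))) => hl i j))
  simp only [Finset.sum_add_distrib, Finset.sum_const, Finset.card_univ, Fintype.card_fin,
    nsmul_eq_mul, ← Finset.mul_sum] at H2
  have H3 := Finset.sum_le_sum (fun i (_ : i ∈ (univ : Finset (Fin 5))) => hd1 i)
  have H4 := Finset.sum_le_sum (fun i (_ : i ∈ (univ : Finset (Fin 5))) => hd2 i)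
  have H5 := Finset.sum_le_sum (fun i (_ : i ∈ (univ : Finset (Fin 5))) => ht1 i)
  have H6 := Finset.sum_le_sum (fun i (_ : i ∈ (univ : Finset (Fin 5))) => ht2 i)
  simp only [Finset.sum_const, Finset.card_univ, Fintype.card_fin, nsmul_eq_mul] at H3 H4 H5 H6
  rw [q3] at H5
  rw [r3] at H6
  push_cast at H2 H3 H4 H5 H6
  linarith

lemma insert_inl (i : Fin 5) (S T : Finset (Fin 5)) :
    insert (Sum.inl i) (S.disjSum T) = (insert i S).disjSum T := by
  ext x
  rcases x with x | x <;> simp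

lemma insert_inr (j : Fin 5) (S T : Finset (Fin 5)) :
    insert (Sum.inr j) (S.disjSum T) = S.disjSum (insert j T) := by
  ext x
  rcases x with x | x <;> simp

/-- The cut function of the pentagon is modular along the pairs at distance two. -/
lemma innerCut_mod (S : Finset (Fin 5)) (i : Fin 5) (h1 : i ∉ S) (h2 : i + 2 ∉ S) :
    innerCut 0 (insert i (insert (i + 2) S)) + innerCut 0 S =
      innerCut 0 (insert i S) + innerCut 0 (insert (i + 2) S) := by
  revert i S
  decide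

lemma card_mod (S : Finset (Fin 5)) (i : Fin 5) (h1 : i ∉ S) (h2 : i + 2 ∉ S) :
    ((insert i (insert (i + 2) S)).card : ℤ) = S.card + 2 ∧ ((insert i S).card : ℤ) = S.card + 1 ∧
      ((insert (i + 2) S).card : ℤ) = S.card + 1 := by
  revert i S
  decide

lemma add_two_ne (i : Fin 5) : i ≠ i + 2 := by
  revert i; decide

lemma not_mem_Nb (i : Fin 5) : i ∉ Nb i := by
  revert i; decide

lemma innerCut_small : innerCut 0 ∅ = 0 ∧ (∀ i, innerCut 0 {i} = 8) := by
  decide

theorem lower_bound {φ₁ φ₂ : Finset W → ℝ}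
    (h : IsDecomposition (cutFn (⊤ : SimpleGraph W) (weight 0)) φ₁ φ₂) : 65 ≤ φ₁ univ := by
  have hsub1 := h.sub₁.local
  have hsub2 := h.sub₂.local
  have hφ2 : ∀ S T : Finset (Fin 5), φ₂ (S.disjSum T) =
      ((innerCut 0 S + innerCut 0 T + 2 * (S.card * (5 - T.card) + T.card * (5 - S.card)) : ℤ) : ℝ)
        - φ₁ (S.disjSum T) := by
    intro S T
    rw [← cut_eq, h.sum]
    ring
  have hun : (univ : Finset W) = (univ : Finset (Fin 5)).disjSum univ := by
    ext x; rcases x with x | x <;> simp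
  have hem : (∅ : Finset W) = (∅ : Finset (Fin 5)).disjSum ∅ := by
    ext x; rcases x with x | x <;> simp
  rw [hun]
  refine lower (fun S T => φ₁ (S.disjSum T)) ?_ ?_ ?_ ?_ ?_ ?_ ?_ ?_ ?_
  · show φ₁ _ = 0
    rw [← hem, h.zero₁]
  · intro T S i h1 h2
    show φ₁ _ + φ₁ _ = φ₁ _ + φ₁ _
    have a1 := hsub1 (S.disjSum T) (Sum.inl i) (Sum.inl (i + 2)) (by simp)
    have a2 := hsub2 (S.disjSum T) (Sum.inl i) (Sum.inl (i + 2)) (by simp)
    rw [insert_inl, insert_inl, insert_inl] at a1 a2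
    rw [hφ2, hφ2, hφ2, hφ2] at a2
    have b1 := innerCut_mod S i h1 h2
    obtain ⟨c1, c2, c3⟩ := card_mod S i h1 h2
    have b1' : ((innerCut 0 (insert i (insert (i + 2) S)) : ℤ) : ℝ) + ((innerCut 0 S : ℤ) : ℝ) =
      ((innerCut 0 (insert i S) : ℤ) : ℝ) + ((innerCut 0 (insert (i + 2) S) : ℤ) : ℝ) := by
      exact_mod_cast b1
    rw [c1, c2, c3] at a2
    push_cast at a2
    linarith
  · intro S T i h1 h2
    show φ₁ _ + φ₁ _ = φ₁ _ + φ₁ _
    have a1 := hsub1 (S.disjSum T) (Sum.inr i) (Sum.inr (i + 2)) (by simp)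
    have a2 := hsub2 (S.disjSum T) (Sum.inr i) (Sum.inr (i + 2)) (by simp)
    rw [insert_inr, insert_inr, insert_inr] at a1 a2
    rw [hφ2, hφ2, hφ2, hφ2] at a2
    have b1 := innerCut_mod T i h1 h2
    obtain ⟨c1, c2, c3⟩ := card_mod T i h1 h2
    have b1' : ((innerCut 0 (insert i (insert (i + 2) T)) : ℤ) : ℝ) + ((innerCut 0 T : ℤ) : ℝ) =
      ((innerCut 0 (insert i T) : ℤ) : ℝ) + ((innerCut 0 (insert (i + 2) T) : ℤ) : ℝ) := by
      exact_mod_cast b1
    rw [c1, c2, c3] at a2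
    push_cast at a2
    linarith
  · intro i
    show 18 ≤ φ₁ _
    have a := h.dec ∅ (({i} : Finset (Fin 5)).disjSum ∅) (Finset.empty_subset _)
    rw [h.zero₂, hφ2, innerCut_small.2, innerCut_small.1] at a
    simp only [Finset.card_singleton, Finset.card_empty] at a
    push_cast at a
    linarith
  · intro i
    show 18 ≤ φ₁ _
    have a := h.dec ∅ ((∅ : Finset (Fin 5)).disjSum {i}) (Finset.empty_subset _)
    rw [h.zero₂, hφ2, innerCut_small.2, innerCut_small.1] at a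
    simp only [Finset.card_singleton, Finset.card_empty] at a
    push_cast at a
    linarith
  · intro i
    exact h.inc _ _ (by rw [← hun]; exact Finset.subset_univ _)
  · intro j
    exact h.inc _ _ (by rw [← hun]; exact Finset.subset_univ _)
  · intro i j
    show φ₁ _ + φ₁ _ ≤ φ₁ _ + φ₁ _
    have a1 := hsub1 ((Nb i).disjSum (Nb j)) (Sum.inl i) (Sum.inr j) (by simp)
    rw [insert_inl, insert_inr, insert_inl, insert_Nb, insert_Nb] at a1
    exact a1
  · intro i j
    show φ₁ _ + φ₁ _ ≤ φ₁ _ + φ₁ _ + 4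
    have a2 := hsub2 ((∅ : Finset (Fin 5)).disjSum ∅) (Sum.inl i) (Sum.inr j) (by simp)
    rw [insert_inl, insert_inr, insert_inl, hφ2, hφ2, hφ2, hφ2] at a2
    simp only [LawfulSingleton.insert_empty_eq, innerCut_small.2, innerCut_small.1,
      Finset.card_singleton, Finset.card_empty] at a2
    push_cast at a2
    linarith

/-! ### Decompositions given by tables -/

/-- The type of a subset of the pentagon: its size, and whether it is (for size 2) an edge or (for
size 3) a path. -/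
def ty (S : Finset (Fin 5)) : ℕ :=
  match S.card, (S.filter (fun i => i + 1 ∈ S)).card with
  | 0, _ => 0
  | 1, _ => 1
  | 2, 1 => 2
  | 2, _ => 3
  | 3, 2 => 4
  | 3, _ => 5
  | 4, _ => 6
  | _, _ => 7

/-- The transitions of types when a point is added. -/
def L1 : List (ℕ × ℕ) := [(0, 1), (1, 2), (1, 3), (2, 4), (2, 5), (3, 4), (3, 5), (4, 6), (5, 6), (6, 7)]

/-- The transitions of types when two points are added. -/
def L2 : List (ℕ × ℕ × ℕ × ℕ) := [(0, 1, 1, 2), (0, 1, 1, 3), (1, 2, 2, 4), (1, 2, 3, 4), (1, 2, 3, 5), (1, 3, 2, 4), (1, 3, 2, 5), (1, 3, 3, 5), (2, 4, 4, 6), (2, 4, 5, 6), (2, 5, 4, 6), (3, 4, 5, 6), (3, 5, 4, 6), (3, 5, 5, 6), (4, 6, 6, 7), (5, 6, 6, 7)]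

lemma ty_insert : ∀ (S : Finset (Fin 5)) (i : Fin 5), i ∉ S → (ty S, ty (insert i S)) ∈ L1 := by
  decide

lemma ty_insert_insert : ∀ (S : Finset (Fin 5)) (i j : Fin 5), i ∉ S → j ∉ S → i ≠ j →
    (ty S, ty (insert i S), ty (insert j S), ty (insert i (insert j S))) ∈ L2 := by
  decide

lemma ty_lt : ∀ S : Finset (Fin 5), ty S ∈ List.range 8 := by
  decide

/-- The set function given by a table. -/
noncomputable def tab (R : ℕ → ℕ → ℝ) (X : Finset W) : ℝ := R (ty X.toLeft) (ty X.toRight)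

lemma tab_inc {R : ℕ → ℕ → ℝ}
    (h : ∀ p ∈ L1, ∀ t ∈ List.range 8, R p.1 t ≤ R p.2 t ∧ R t p.1 ≤ R t p.2) :
    IsIncreasing (tab R) := by
  refine increasing_of_local ?_
  intro X v hv
  unfold tab
  rcases v with i | i
  · rw [toLeft_insert_inl, toRight_insert_inl]
    exact (h _ (ty_insert X.toLeft i (by simpa using hv)) _ (ty_lt _)).1
  · rw [toLeft_insert_inr, toRight_insert_inr]
    exact (h _ (ty_insert X.toRight i (by simpa using hv)) _ (ty_lt _)).2

lemma tab_dec {R : ℕ → ℕ → ℝ}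
    (h : ∀ p ∈ L1, ∀ t ∈ List.range 8, R p.2 t ≤ R p.1 t ∧ R t p.2 ≤ R t p.1) :
    IsDecreasing (tab R) := by
  refine decreasing_of_local ?_
  intro X v hv
  unfold tab
  rcases v with i | i
  · rw [toLeft_insert_inl, toRight_insert_inl]
    exact (h _ (ty_insert X.toLeft i (by simpa using hv)) _ (ty_lt _)).1
  · rw [toLeft_insert_inr, toRight_insert_inr]
    exact (h _ (ty_insert X.toRight i (by simpa using hv)) _ (ty_lt _)).2

lemma tab_sub {R : ℕ → ℕ → ℝ}
    (h1 : ∀ p ∈ L2, ∀ t ∈ List.range 8, R p.2.2.2 t + R p.1 t ≤ R p.2.1 t + R p.2.2.1 t ∧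
      R t p.2.2.2 + R t p.1 ≤ R t p.2.1 + R t p.2.2.1)
    (h2 : ∀ p ∈ L1, ∀ r ∈ L1, R p.2 r.2 + R p.1 r.1 ≤ R p.2 r.1 + R p.1 r.2) :
    IsSubmodular (tab R) := by
  refine submodular_of_local ?_
  intro X u v hu hv huv
  unfold tab
  rcases u with i | i <;> rcases v with j | j
  · rw [toLeft_insert_inl, toRight_insert_inl, toLeft_insert_inl, toRight_insert_inl,
      toLeft_insert_inl, toRight_insert_inl]
    exact (h1 _ (ty_insert_insert X.toLeft i j (by simpa using hu) (by simpa using hv)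
      (fun e => huv (by rw [e]))) _ (ty_lt _)).1
  · rw [toLeft_insert_inl, toRight_insert_inl, toLeft_insert_inr, toRight_insert_inr,
      toLeft_insert_inl, toRight_insert_inl]
    exact h2 _ (ty_insert X.toLeft i (by simpa using hu)) _
      (ty_insert X.toRight j (by simpa using hv))
  · rw [toLeft_insert_inr, toRight_insert_inr, toLeft_insert_inl, toRight_insert_inl,
      toLeft_insert_inr, toRight_insert_inr]
    have := h2 _ (ty_insert X.toLeft j (by simpa using hv)) _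
      (ty_insert X.toRight i (by simpa using hu))
    linarith
  · rw [toLeft_insert_inr, toRight_insert_inr, toLeft_insert_inr, toRight_insert_inr,
      toLeft_insert_inr, toRight_insert_inr]
    exact (h1 _ (ty_insert_insert X.toRight i j (by simpa using hu) (by simpa using hv)
      (fun e => huv (by rw [e]))) _ (ty_lt _)).2

/-- Look up an eight by eight table, given as a list. -/
def look (T : List ℕ) (s t : ℕ) : ℕ := T.getD (8 * s + t) 0

/-- The monotonicity checks for `H / κ` and `D - H / κ`. -/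
def checkMono (κ : ℕ) (D H : ℕ → ℕ → ℕ) : Bool :=
  L1.all fun p => (List.range 8).all fun t =>
    Nat.ble (H p.1 t) (H p.2 t) && Nat.ble (H t p.1) (H t p.2) &&
    Nat.ble (κ * D p.2 t + H p.1 t) (κ * D p.1 t + H p.2 t) &&
    Nat.ble (κ * D t p.2 + H t p.1) (κ * D t p.1 + H t p.2)

/-- The submodularity checks, two points on the same side. -/
def checkSub1 (κ : ℕ) (D H : ℕ → ℕ → ℕ) : Bool :=
  L2.all fun p => (List.range 8).all fun t =>
    Nat.ble (H p.2.2.2 t + H p.1 t) (H p.2.1 t + H p.2.2.1 t) &&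
    Nat.ble (H t p.2.2.2 + H t p.1) (H t p.2.1 + H t p.2.2.1) &&
    Nat.ble (κ * D p.2.2.2 t + κ * D p.1 t + (H p.2.1 t + H p.2.2.1 t))
      (κ * D p.2.1 t + κ * D p.2.2.1 t + (H p.2.2.2 t + H p.1 t)) &&
    Nat.ble (κ * D t p.2.2.2 + κ * D t p.1 + (H t p.2.1 + H t p.2.2.1))
      (κ * D t p.2.1 + κ * D t p.2.2.1 + (H t p.2.2.2 + H t p.1))

/-- The submodularity checks, two points on different sides. -/
def checkSub2 (κ : ℕ) (D H : ℕ → ℕ → ℕ) : Bool :=
  L1.all fun p => L1.all fun r =>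
    Nat.ble (H p.2 r.2 + H p.1 r.1) (H p.2 r.1 + H p.1 r.2) &&
    Nat.ble (κ * D p.2 r.2 + κ * D p.1 r.1 + (H p.2 r.1 + H p.1 r.2))
      (κ * D p.2 r.1 + κ * D p.1 r.2 + (H p.2 r.2 + H p.1 r.1))

/-- The sizes of the types. -/
def K : List ℕ := [0, 1, 2, 2, 3, 3, 4, 5]

/-- The values of `innerCut q` on the types. -/
def C (q : ℕ) : List ℕ :=
  [0, 8 + 2 * q, 8 + 4 * q, 16 + 2 * q, 8 + 4 * q, 16 + 2 * q, 8 + 2 * q, 0]

lemma card_ty : ∀ S : Finset (Fin 5), S.card = K.getD (ty S) 0 ∧ K.getD (ty S) 0 ≤ 5 := by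
  decide

lemma innerCut_zero : ∀ S : Finset (Fin 5), innerCut 0 S = ((C 0).getD (ty S) 0 : ℕ) := by decide

lemma innerCut_one : ∀ S : Finset (Fin 5), innerCut 1 S = ((C 1).getD (ty S) 0 : ℕ) := by decide

/-- The cut function as a table. -/
def D (q : ℕ) (s t : ℕ) : ℕ := (C q).getD s 0 + (C q).getD t 0 +
  2 * (K.getD s 0 * (5 - K.getD t 0) + K.getD t 0 * (5 - K.getD s 0))

lemma cut_table (q : ℕ) (hq : ∀ S : Finset (Fin 5), innerCut q S = ((C q).getD (ty S) 0 : ℕ))
    (X : Finset W) :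
    cutFn (⊤ : SimpleGraph W) (weight q) X = ((D q (ty X.toLeft) (ty X.toRight) : ℕ) : ℝ) := by
  conv_lhs => rw [← toLeft_disjSum_toRight (u := X)]
  obtain ⟨h1, h2⟩ := card_ty X.toLeft
  obtain ⟨h3, h4⟩ := card_ty X.toRight
  rw [cut_eq, hq, hq, h1, h3]
  unfold D
  push_cast [Nat.cast_sub h2, Nat.cast_sub h4]
  ring

lemma decomposition (q κ : ℕ) (hκ : 0 < κ) (H : ℕ → ℕ → ℕ)
    (hq : ∀ S : Finset (Fin 5), innerCut q S = ((C q).getD (ty S) 0 : ℕ))
    (c1 : checkMono κ (D q) H = true) (c2 : checkSub1 κ (D q) H = true)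
    (c3 : checkSub2 κ (D q) H = true) (c4 : H 0 0 = 0) (c5 : D q 0 0 = 0) :
    IsDecomposition (cutFn (⊤ : SimpleGraph W) (weight q))
      (tab fun s t => (H s t : ℝ) / (κ : ℝ))
      (tab fun s t => ((D q s t : ℕ) : ℝ) - (H s t : ℝ) / (κ : ℝ)) := by
  have hk : (0 : ℝ) < κ := by exact_mod_cast hκ
  have e0 : ty ∅ = 0 := by decide
  have toLeft_empty : (∅ : Finset W).toLeft = ∅ := by ext x; simp
  have toRight_empty : (∅ : Finset W).toRight = ∅ := by ext x; simp
  simp only [checkMono, checkSub1, checkSub2, List.all_eq_true, Bool.and_eq_true,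
    Nat.ble_eq] at c1 c2 c3
  refine ⟨?_, tab_inc ?_, tab_sub ?_ ?_, tab_dec ?_, tab_sub ?_ ?_, ?_, ?_⟩
  · intro X
    rw [cut_table q hq]
    unfold tab
    ring
  · intro p hp t ht
    obtain ⟨⟨⟨h1, h2⟩, _⟩, _⟩ := c1 p hp t ht
    exact ⟨div_le_div_of_nonneg_right (by exact_mod_cast h1) hk.le,
      div_le_div_of_nonneg_right (by exact_mod_cast h2) hk.le⟩
  · intro p hp t ht
    obtain ⟨⟨⟨h1, h2⟩, _⟩, _⟩ := c2 p hp t ht
    simp only [← add_div]
    exact ⟨div_le_div_of_nonneg_right (by exact_mod_cast h1) hk.le,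
      div_le_div_of_nonneg_right (by exact_mod_cast h2) hk.le⟩
  · intro p hp r hr
    obtain ⟨h1, _⟩ := c3 p hp r hr
    simp only [← add_div]
    exact div_le_div_of_nonneg_right (by exact_mod_cast h1) hk.le
  · intro p hp t ht
    obtain ⟨⟨_, h1⟩, h2⟩ := c1 p hp t ht
    have g1 : (κ : ℝ) * (D q p.2 t : ℕ) + (H p.1 t : ℝ) ≤ κ * (D q p.1 t : ℕ) + (H p.2 t : ℝ) := by
      exact_mod_cast h1
    have g2 : (κ : ℝ) * (D q t p.2 : ℕ) + (H t p.1 : ℝ) ≤ κ * (D q t p.1 : ℕ) + (H t p.2 : ℝ) := by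
      exact_mod_cast h2
    constructor
    · rw [← sub_nonneg]
      have : ((D q p.1 t : ℕ) : ℝ) - (H p.1 t : ℝ) / κ - (((D q p.2 t : ℕ) : ℝ) - (H p.2 t : ℝ) / κ)
        = ((κ * (D q p.1 t : ℕ) + (H p.2 t : ℝ)) - ((κ : ℝ) * (D q p.2 t : ℕ) + (H p.1 t : ℝ))) / κ
        := by field_simp; ring
      rw [this]
      exact div_nonneg (by linarith) hk.le
    · rw [← sub_nonneg]
      have : ((D q t p.1 : ℕ) : ℝ) - (H t p.1 : ℝ) / κ - (((D q t p.2 : ℕ) : ℝ) - (H t p.2 : ℝ) / κ)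
        = ((κ * (D q t p.1 : ℕ) + (H t p.2 : ℝ)) - ((κ : ℝ) * (D q t p.2 : ℕ) + (H t p.1 : ℝ))) / κ
        := by field_simp; ring
      rw [this]
      exact div_nonneg (by linarith) hk.le
  · intro p hp t ht
    obtain ⟨⟨_, h1⟩, h2⟩ := c2 p hp t ht
    have g1 : (κ : ℝ) * (D q p.2.2.2 t : ℕ) + κ * (D q p.1 t : ℕ) + ((H p.2.1 t : ℝ) + H p.2.2.1 t) ≤
      κ * (D q p.2.1 t : ℕ) + κ * (D q p.2.2.1 t : ℕ) + ((H p.2.2.2 t : ℝ) + H p.1 t) := by
      exact_mod_cast h1
    have g2 : (κ : ℝ) * (D q t p.2.2.2 : ℕ) + κ * (D q t p.1 : ℕ) + ((H t p.2.1 : ℝ) + H t p.2.2.1) ≤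
      κ * (D q t p.2.1 : ℕ) + κ * (D q t p.2.2.1 : ℕ) + ((H t p.2.2.2 : ℝ) + H t p.1) := by
      exact_mod_cast h2
    constructor
    · rw [← sub_nonneg]
      have : ((D q p.2.1 t : ℕ) : ℝ) - (H p.2.1 t : ℝ) / κ + (((D q p.2.2.1 t : ℕ) : ℝ) -
          (H p.2.2.1 t : ℝ) / κ) - (((D q p.2.2.2 t : ℕ) : ℝ) - (H p.2.2.2 t : ℝ) / κ +
          (((D q p.1 t : ℕ) : ℝ) - (H p.1 t : ℝ) / κ))
        = ((κ * (D q p.2.1 t : ℕ) + κ * (D q p.2.2.1 t : ℕ) + ((H p.2.2.2 t : ℝ) + H p.1 t)) -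
          ((κ : ℝ) * (D q p.2.2.2 t : ℕ) + κ * (D q p.1 t : ℕ) + ((H p.2.1 t : ℝ) + H p.2.2.1 t)))
          / κ := by field_simp; ring
      rw [this]
      exact div_nonneg (by linarith) hk.le
    · rw [← sub_nonneg]
      have : ((D q t p.2.1 : ℕ) : ℝ) - (H t p.2.1 : ℝ) / κ + (((D q t p.2.2.1 : ℕ) : ℝ) -
          (H t p.2.2.1 : ℝ) / κ) - (((D q t p.2.2.2 : ℕ) : ℝ) - (H t p.2.2.2 : ℝ) / κ +
          (((D q t p.1 : ℕ) : ℝ) - (H t p.1 : ℝ) / κ))
        = ((κ * (D q t p.2.1 : ℕ) + κ * (D q t p.2.2.1 : ℕ) + ((H t p.2.2.2 : ℝ) + H t p.1)) -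
          ((κ : ℝ) * (D q t p.2.2.2 : ℕ) + κ * (D q t p.1 : ℕ) + ((H t p.2.1 : ℝ) + H t p.2.2.1)))
          / κ := by field_simp; ring
      rw [this]
      exact div_nonneg (by linarith) hk.le
  · intro p hp r hr
    obtain ⟨_, h1⟩ := c3 p hp r hr
    have g1 : (κ : ℝ) * (D q p.2 r.2 : ℕ) + κ * (D q p.1 r.1 : ℕ) + ((H p.2 r.1 : ℝ) + H p.1 r.2) ≤
      κ * (D q p.2 r.1 : ℕ) + κ * (D q p.1 r.2 : ℕ) + ((H p.2 r.2 : ℝ) + H p.1 r.1) := by
      exact_mod_cast h1
    rw [← sub_nonneg]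
    have : ((D q p.2 r.1 : ℕ) : ℝ) - (H p.2 r.1 : ℝ) / κ + (((D q p.1 r.2 : ℕ) : ℝ) -
        (H p.1 r.2 : ℝ) / κ) - (((D q p.2 r.2 : ℕ) : ℝ) - (H p.2 r.2 : ℝ) / κ +
        (((D q p.1 r.1 : ℕ) : ℝ) - (H p.1 r.1 : ℝ) / κ))
      = ((κ * (D q p.2 r.1 : ℕ) + κ * (D q p.1 r.2 : ℕ) + ((H p.2 r.2 : ℝ) + H p.1 r.1)) -
        ((κ : ℝ) * (D q p.2 r.2 : ℕ) + κ * (D q p.1 r.1 : ℕ) + ((H p.2 r.1 : ℝ) + H p.1 r.2)))
        / κ := by field_simp; ring
    rw [this]
    exact div_nonneg (by linarith) hk.le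
  · unfold tab
    rw [toLeft_empty, toRight_empty, e0]
    simp [c4]
  · unfold tab
    rw [toLeft_empty, toRight_empty, e0]
    simp [c4, c5]

/-- Twice the increasing part of a decomposition for `q = 1`. -/
def T1 : List ℕ :=
  [0, 40, 66, 76, 88, 98, 106, 110,
   40, 72, 90, 100, 104, 114, 116, 118,
   66, 90, 104, 110, 114, 120, 121, 122,
   76, 100, 110, 120, 120, 126, 126, 126,
   88, 104, 114, 120, 120, 126, 126, 126,
   98, 114, 120, 126, 126, 128, 128, 128,
   106, 116, 121, 126, 126, 128, 128, 128,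
   110, 118, 122, 126, 126, 128, 128, 128]

/-- Five times the increasing part of a decomposition for `q = 0`. -/
def T0 : List ℕ :=
  [0, 90, 140, 180, 190, 230, 240, 250,
   90, 160, 198, 230, 236, 268, 274, 280,
   140, 198, 229, 256, 260, 287, 291, 295,
   180, 230, 256, 280, 282, 306, 308, 310,
   190, 236, 260, 282, 284, 306, 308, 310,
   230, 268, 287, 306, 306, 325, 325, 325,
   240, 274, 291, 308, 308, 325, 325, 325,
   250, 280, 295, 310, 310, 325, 325, 325]

lemma dec_one : IsDecomposition (cutFn (⊤ : SimpleGraph W) (weight (1 : ℕ)))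
    (tab fun s t => (look T1 s t : ℝ) / ((2 : ℕ) : ℝ))
    (tab fun s t => ((D 1 s t : ℕ) : ℝ) - (look T1 s t : ℝ) / ((2 : ℕ) : ℝ)) :=
  decomposition 1 2 (by decide) (look T1) innerCut_one (by decide +kernel) (by decide +kernel)
    (by decide +kernel) (by decide) (by decide)

lemma dec_zero : IsDecomposition (cutFn (⊤ : SimpleGraph W) (weight (0 : ℕ)))
    (tab fun s t => (look T0 s t : ℝ) / ((5 : ℕ) : ℝ))
    (tab fun s t => ((D 0 s t : ℕ) : ℝ) - (look T0 s t : ℝ) / ((5 : ℕ) : ℝ)) :=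
  decomposition 0 5 (by decide) (look T0) innerCut_zero (by decide +kernel) (by decide +kernel)
    (by decide +kernel) (by decide) (by decide)

lemma tab_univ (R : ℕ → ℕ → ℝ) : tab R univ = R 7 7 := by
  unfold tab
  have e1 : (univ : Finset W).toLeft = univ := by ext x; simp
  have e2 : (univ : Finset W).toRight = univ := by ext x; simp
  have e3 : ty univ = 7 := by decide
  rw [e1, e2, e3]

lemma bddBelow {V : Type} [Fintype V] [DecidableEq V] (φ : Finset V → ℝ) :
    BddBelow {t | ∃ φ₁ φ₂ : Finset V → ℝ, IsDecomposition φ φ₁ φ₂ ∧ t = φ₁ univ} := by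
  refine ⟨0, ?_⟩
  rintro t ⟨φ₁, φ₂, h, rfl⟩
  rw [← h.zero₁]
  exact h.inc _ _ (Finset.empty_subset _)

/-- `‖d_w‖₊ ≤ 64`. -/
theorem norm_one : plusNorm (cutFn (⊤ : SimpleGraph W) (weight 1)) ≤ 64 := by
  refine csInf_le (bddBelow _) ⟨_, _, dec_one, ?_⟩
  rw [tab_univ]
  have : look T1 7 7 = 128 := by decide
  rw [this]
  norm_num

/-- `‖d_w'‖₊ = 65`, and the infimum is attained. -/
theorem norm_zero : IsLeast {t | ∃ φ₁ φ₂ : Finset W → ℝ,
    IsDecomposition (cutFn (⊤ : SimpleGraph W) (weight 0)) φ₁ φ₂ ∧ t = φ₁ univ} 65 := by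
  refine ⟨⟨_, _, dec_zero, ?_⟩, ?_⟩
  · rw [tab_univ]
    have : look T0 7 7 = 325 := by decide
    rw [this]
    norm_num
  · rintro t ⟨φ₁, φ₂, h, rfl⟩
    exact lower_bound h

/-- **The sum-decomposition value is not monotone.** There are a finite graph `G` and weights
`0 ≤ w' ≤ w` on its edges such that `‖d_{G,w}‖₊ ≤ 64` and `‖d_{G,w'}‖₊ = 65`. -/
theorem result : ∃ (V : Type) (_ : Fintype V) (_ : DecidableEq V) (G : SimpleGraph V)
    (w w' : Sym2 V → ℝ), (∀ e ∈ G.edgeSet, 0 ≤ w' e ∧ w' e ≤ w e) ∧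
      plusNorm (cutFn G w) ≤ 64 ∧ plusNorm (cutFn G w') = 65 := by
  refine ⟨W, inferInstance, inferInstance, ⊤, weight 1, weight 0, ?_, norm_one,
    norm_zero.csInf_eq⟩
  intro e _
  induction e with | _ u v
  rw [weight_mk, weight_mk]
  have h : ∀ u v : W, 0 ≤ wt 0 u v ∧ wt 0 u v ≤ wt 1 u v := by decide
  exact ⟨by exact_mod_cast (h u v).1, by exact_mod_cast (h u v).2⟩

end Pool.Agent.Results.MP_37da45_co.NotMonotone
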